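import Pool.Agent.QSX.StmtsE

set_option autoImplicit false

namespace Pool.Agent.QSX.H77

open Matrix Finset Pool.Agent.QSX

theorem ebd_range {R : Type} [CommRing R] [Algebra ℝ R] {m : ℕ} {x : Matrix (Fin m) (Fin m) R}
    (hx : SU x) (n : ℕ) (h : m ≤ n) :
    mexp x = ∑ k ∈ range (n + 1), ((k.factorial : ℝ)⁻¹) • x ^ k := by
  unfold mexp
  apply Finset.sum_subset
  · intro k hk
    rw [Finset.mem_range] at hk ⊢
    omega
  · intro k _ hk
    rw [Finset.mem_range, not_lt] at hk
    rw [hx.pow_eq_zero (by omega), smul_zero]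

theorem ebd_pow {R : Type} [CommRing R] {m m' : ℕ} (x : Matrix (Fin m) (Fin m) R)
    (y : Matrix (Fin m') (Fin m') R) (k : ℕ) : bd x y ^ k = bd (x ^ k) (y ^ k) := by
  induction k with
  | zero => rw [pow_zero, pow_zero, pow_zero, bd_one]
  | succ k ih => rw [pow_succ, ih, bd_mul, ← pow_succ, ← pow_succ]

theorem ebd_sum {R : Type} [CommRing R] {m m' : ℕ} (s : Finset ℕ)
    (f : ℕ → Matrix (Fin m) (Fin m) R) (g : ℕ → Matrix (Fin m') (Fin m') R) :
    ∑ k ∈ s, bd (f k) (g k) = bd (∑ k ∈ s, f k) (∑ k ∈ s, g k) := by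
  classical
  induction s using Finset.induction_on with
  | empty => rw [sum_empty, sum_empty, sum_empty, bd_zero]
  | insert a s ha ih => rw [sum_insert ha, sum_insert ha, sum_insert ha, ih, bd_add]

theorem ebd : EbdStmt := by
  refine ⟨?_, ?_⟩
  · intro R _ _ m m' x y hx hy
    have h1 : mexp (bd x y) = bd (mexp x) (mexp y) := by
      rw [ebd_range hx (m + m') (by omega), ebd_range hy (m + m') (by omega), ← ebd_sum]
      unfold mexp
      refine Finset.sum_congr rfl fun k _ => ?_
      rw [ebd_pow, bd_smul]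
    refine ⟨h1, ?_⟩
    apply Units.ext
    rw [ue_val (SU_bd hx hy), h1]
    show bd (mexp x) (mexp y) = bd ((ue x : (Matrix (Fin m) (Fin m) R)ˣ) : Matrix (Fin m) (Fin m) R)
      ((ue y : (Matrix (Fin m') (Fin m') R)ˣ) : Matrix (Fin m') (Fin m') R)
    rw [ue_val hx, ue_val hy]
  · intro m m' c c'
    apply Units.ext
    show diagonal (fun i => Real.exp (Fin.append c c' i)) =
      bd (diagonal fun i => Real.exp (c i)) (diagonal fun i => Real.exp (c' i))
    rw [bd_diagonal]
    congr 1
    funext i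
    refine Fin.addCases (fun j => ?_) (fun j => ?_) i
    · rw [Fin.append_left, Fin.append_left]
    · rw [Fin.append_right, Fin.append_right]

end Pool.Agent.QSX.H77
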