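import Pool.Agent.QSX.StmtsM
import Pool.Agent.Helper18_FC.Foelner

set_option autoImplicit false

namespace Pool.Agent.QSX.H77

open Finset

theorem fcm : FcmStmt := by
  classical
  intro G _ H δ hδ
  obtain ⟨ι, hι, p, hpos, _, hp⟩ := Pool.Agent.H18FC.ab_aux (M := G) δ hδ H
  refine ⟨Fintype.card ι, fun i => p ((Fintype.equivFin ι).symm i), hpos, ?_⟩
  intro h hh F hF
  have h1 := hp h hh F hF
  have e1 : ∑ i : Fin (Fintype.card ι), F (p ((Fintype.equivFin ι).symm i) * h) =
      ∑ i, F (p i * h) := Equiv.sum_comp (Fintype.equivFin ι).symm fun i => F (p i * h)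
  have e2 : ∑ i : Fin (Fintype.card ι), F (p ((Fintype.equivFin ι).symm i)) =
      ∑ i, F (p i) := Equiv.sum_comp (Fintype.equivFin ι).symm fun i => F (p i)
  rw [e1, e2]
  exact h1

end Pool.Agent.QSX.H77
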