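import Pool.Agent.QSX.StmtsA

set_option autoImplicit false

namespace Pool.Agent.QSX.H77

open Matrix Finset Pool.Agent.QSX

theorem nre (hR : RdmStmt) : NreStmt := by
  intro S V _ _ m P K h0 hK v hU hCl
  have hM : S.MdM v := by
    intro i j ε hε
    rcases lt_trichotomy i j with h | h | h
    · filter_upwards [hCl ε hε] with s hs
      have h1 := hs 0 ⟨by simp, h0⟩ i j h
      rw [map_zero, Pi.zero_apply, Pi.zero_apply, sub_zero, zero_add, mul_comm] at h1
      exact h1
    · subst h
      filter_upwards [S.ev_R 0] with s hs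
      have h1 := hU s i i le_rfl
      rw [Matrix.sub_apply, Matrix.one_apply_eq, sub_eq_zero] at h1
      rw [h1, abs_one]
      exact Real.one_le_exp (mul_nonneg hε.le hs)
    · filter_upwards [S.ev_R 0] with s hs
      have h1 := hU s i j h.le
      rw [Matrix.sub_apply, Matrix.one_apply_ne (ne_of_gt h), sub_zero] at h1
      rw [h1, abs_zero]
      exact (Real.exp_pos _).le
  refine ⟨hM, ?_⟩
  intro i l hil hne a ha
  by_contra hneg
  rw [not_le] at hneg
  have ht : (0 : ℝ) < (1 + ‖a‖)⁻¹ := by positivity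
  set t : ℝ := (1 + ‖a‖)⁻¹ with htdef
  have h1 : t • a ∈ K := hK a ha t ht.le
  have h2 : ‖t • a‖ ≤ 1 := by
    rw [norm_smul, Real.norm_of_nonneg ht.le, htdef, inv_mul_le_iff₀ (by positivity)]
    linarith
  have h3 : P (t • a) i - P (t • a) l = t * (P a i - P a l) := by
    rw [map_smul, Pi.smul_apply, Pi.smul_apply, smul_eq_mul, smul_eq_mul]; ring
  have h4 : t * (P a i - P a l) < 0 := mul_neg_of_pos_of_neg ht hneg
  apply hne
  refine ((hR S m).2.2.2.2 v hM i l).mpr ⟨-(t * (P a i - P a l)) / 2, by linarith, ?_⟩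
  filter_upwards [hCl (-(t * (P a i - P a l)) / 2) (by linarith)] with s hs
  have h5 := hs (t • a) ⟨h2, h1⟩ i l hil
  rw [h3] at h5
  refine h5.trans (Real.exp_le_exp.2 (le_of_eq ?_))
  ring

end Pool.Agent.QSX.H77
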